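import Mathlib

set_option autoImplicit false

open Matrix
open scoped commutatorElement

namespace Pool.Agent.Results.MP_1b60fb_al.OrthogonalThree

/-- Property (*) of a group `G`, relative to the defining characteristic `p`: for every abelian
subgroup `A` all of whose elements have order coprime to `p`, and every proper subgroup `H`,
some conjugate `A ^ x = x⁻¹ A x` meets `H` trivially. -/
def StarProperty (G : Type) [Group G] (p : ℕ) : Prop :=
  ∀ A : Subgroup G, (∀ a ∈ A, ∀ b ∈ A, a * b = b * a) → (∀ a ∈ A, (orderOf a).Coprime p) →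
    ∀ H : Subgroup G, H ≠ ⊤ → ∃ x : G, ∀ a ∈ A, x⁻¹ * a * x ∈ H → x⁻¹ * a * x = 1

/-- `O_n(3)`: the isometry group of the quadratic form `x_1² + ... + x_n²` over `F_3`. -/
abbrev O (n : ℕ) : Type := Matrix.orthogonalGroup (Fin n) (ZMod 3)

/-- `Omega_n(3)`: the derived subgroup of `O_n(3)`. -/
abbrev Omega (n : ℕ) : Subgroup (O n) := commutator (O n)

/-- `POmega_n(3)`: the quotient of `Omega_n(3)` by its centre. -/
abbrev POmega (n : ℕ) : Type := Omega n ⧸ Subgroup.center (Omega n)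

section aux

variable {n : ℕ}

/-- vectors -/
abbrev V (n : ℕ) : Type := Fin n → ZMod 3

lemma tmul (g : O n) : g.1ᵀ * g.1 = 1 :=
  (Matrix.mem_orthogonalGroup_iff' (Fin n) (ZMod 3)).1 g.2

lemma norm_inv (g : O n) (v : V n) : (g.1 *ᵥ v) ⬝ᵥ (g.1 *ᵥ v) = v ⬝ᵥ v := by
  rw [dotProduct_mulVec, ← vecMul_transpose, vecMul_vecMul, tmul, vecMul_one]

lemma ext_of_mulVec' {g h : O n} (H : ∀ v : V n, g.1 *ᵥ v = h.1 *ᵥ v) : g = h := by
  apply Subtype.ext
  exact Matrix.ext_of_mulVec_single (fun i => H _)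

lemma mul_mulVec (g h : O n) (v : V n) : (g * h).1 *ᵥ v = g.1 *ᵥ (h.1 *ᵥ v) := by
  rw [mulVec_mulVec]; rfl

lemma one_mulVec' (v : V n) : (1 : O n).1 *ᵥ v = v := one_mulVec v

/-- reflection in the `i`-th coordinate vector -/
def r (i : Fin n) : O n :=
  ⟨diagonal (fun k => if k = i then -1 else 1), by
    rw [Matrix.mem_orthogonalGroup_iff', diagonal_transpose, diagonal_mul_diagonal, ← diagonal_one]
    congr 1
    ext k
    by_cases h : k = i <;> simp [h]⟩

lemma r_mulVec (i : Fin n) (v : V n) (k : Fin n) :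
    ((r i).1 *ᵥ v) k = if k = i then - v k else v k := by
  show (diagonal (fun k => if k = i then (-1 : ZMod 3) else 1) *ᵥ v) k = _
  rw [mulVec_diagonal]
  by_cases h : k = i <;> simp [h]

lemma r_mul_self (i : Fin n) : r i * r i = 1 := by
  apply ext_of_mulVec'
  intro v
  rw [mul_mulVec, one_mulVec']
  ext k
  rw [r_mulVec, r_mulVec]
  by_cases h : k = i <;> simp [h]

lemma r_inv (i : Fin n) : (r i)⁻¹ = r i := inv_eq_of_mul_eq_one_left (r_mul_self i)

/-- permutation matrices -/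
def P (s : Equiv.Perm (Fin n)) : O n :=
  ⟨s.permMatrix (ZMod 3), by
    rw [Matrix.mem_orthogonalGroup_iff', transpose_permMatrix, ← permMatrix_mul, mul_inv_cancel,
      permMatrix_one]⟩

lemma P_mulVec (s : Equiv.Perm (Fin n)) (v : V n) (k : Fin n) :
    ((P s).1 *ᵥ v) k = v (s k) := by
  show ((s.permMatrix (ZMod 3)) *ᵥ v) k = _
  rw [permMatrix_mulVec]; rfl

lemma P_inv (s : Equiv.Perm (Fin n)) : (P s)⁻¹ = P s⁻¹ := by
  apply inv_eq_of_mul_eq_one_left
  apply ext_of_mulVec'
  intro v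
  rw [mul_mulVec, one_mulVec']
  ext k
  rw [P_mulVec, P_mulVec]
  simp

/-- `diag(.., -1, .., -1, ..)`, with `-1` in places `i` and `j`, in `O_n(3)`. -/
def d0 (i j : Fin n) : O n := ⁅r i, P (Equiv.swap i j)⁆

lemma d0_mulVec {i j : Fin n} (hij : i ≠ j) (v : V n) (k : Fin n) :
    ((d0 i j).1 *ᵥ v) k = if k = i ∨ k = j then - v k else v k := by
  rw [d0, commutatorElement_def, r_inv, P_inv, mul_mulVec, mul_mulVec, mul_mulVec, r_mulVec,
    P_mulVec, r_mulVec, P_mulVec]
  simp only [Equiv.swap_inv, Equiv.swap_apply_self]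
  by_cases h : k = i
  · subst h
    rw [Equiv.swap_apply_left, if_pos rfl, if_neg (Ne.symm hij)]
    simp
  · by_cases h' : k = j
    · subst h'
      rw [Equiv.swap_apply_right]
      simp [h]
    · rw [Equiv.swap_apply_of_ne_of_ne h h']
      simp [h, h']

lemma d0_mem (i j : Fin n) : d0 i j ∈ Omega n := by
  rw [Omega, commutator_def]
  exact Subgroup.commutator_mem_commutator (Subgroup.mem_top _) (Subgroup.mem_top _)

/-- the same, as an element of `Omega_n(3)` -/
def d (i j : Fin n) : Omega n := ⟨d0 i j, d0_mem i j⟩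

lemma d_mulVec {i j : Fin n} (hij : i ≠ j) (v : V n) (k : Fin n) :
    ((d i j).1.1 *ᵥ v) k = if k = i ∨ k = j then - v k else v k := d0_mulVec hij v k

lemma omega_ext {g h : Omega n} (H : ∀ v : V n, g.1.1 *ᵥ v = h.1.1 *ᵥ v) : g = h :=
  Subtype.ext (ext_of_mulVec' H)

lemma omega_mul (g h : Omega n) (v : V n) : (g * h).1.1 *ᵥ v = g.1.1 *ᵥ (h.1.1 *ᵥ v) :=
  mul_mulVec g.1 h.1 v

lemma omega_one (v : V n) : (1 : Omega n).1.1 *ᵥ v = v := one_mulVec v

lemma d_comm {i j k l : Fin n} (hij : i ≠ j) (hkl : k ≠ l) : d i j * d k l = d k l * d i j := by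
  apply omega_ext
  intro v
  rw [omega_mul, omega_mul]
  ext m
  rw [d_mulVec hij, d_mulVec hkl, d_mulVec hkl, d_mulVec hij]
  by_cases h : m = i ∨ m = j <;> by_cases h' : m = k ∨ m = l <;> simp [h, h']

lemma d_sq {i j : Fin n} (hij : i ≠ j) : d i j * d i j = 1 := by
  apply omega_ext
  intro v
  rw [omega_mul, omega_one]
  ext m
  rw [d_mulVec hij, d_mulVec hij]
  by_cases h : m = i ∨ m = j <;> simp [h]

/-- the three-cycle as an element of `Omega_n(3)` -/
def cyc (s t : Equiv.Perm (Fin n)) : Omega n := ⟨⁅P s, P t⁆, by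
  rw [Omega, commutator_def]
  exact Subgroup.commutator_mem_commutator (Subgroup.mem_top _) (Subgroup.mem_top _)⟩

lemma cyc_mulVec (s t : Equiv.Perm (Fin n)) (v : V n) (k : Fin n) :
    ((cyc s t).1.1 *ᵥ v) k = v (t⁻¹ (s⁻¹ (t (s k)))) := by
  show ((⁅P s, P t⁆ : O n).1 *ᵥ v) k = _
  rw [commutatorElement_def, P_inv, P_inv, mul_mulVec, mul_mulVec, mul_mulVec, P_mulVec,
    P_mulVec, P_mulVec, P_mulVec]

/-- number of leading ones -/
def s0 (n : ℕ) : ℕ := n % 3 + 1

/-- the reference vector `e_1 + ... + e_s`, of norm `n + 1` -/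
def v0 (n : ℕ) : V n := fun k => if k.val < s0 n then 1 else 0

lemma v0_norm (hn : 5 ≤ n) : v0 n ⬝ᵥ v0 n = (n : ZMod 3) + 1 := by
  have h1 : v0 n ⬝ᵥ v0 n = ∑ k : Fin n, if k.val < s0 n then (1 : ZMod 3) else 0 := by
    unfold dotProduct v0
    refine Finset.sum_congr rfl fun k _ => ?_
    by_cases h : k.val < s0 n <;> simp [h]
  rw [h1, Fin.sum_univ_eq_sum_range (fun k => if k < s0 n then (1 : ZMod 3) else 0) n,
    ← Finset.sum_filter]
  have h2 : (Finset.range n).filter (fun k => k < s0 n) = Finset.range (s0 n) := by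
    ext k
    rw [Finset.mem_filter, Finset.mem_range, Finset.mem_range]
    have : s0 n ≤ n := by unfold s0; omega
    omega
  rw [h2]
  simp only [Finset.sum_const, Finset.card_range, nsmul_eq_mul, mul_one, s0]
  push_cast
  congr 1
  exact ZMod.natCast_mod n 3

/-- if the norm of `v` is `n + 1`, then `v` has two zero coordinates. -/
lemma two_zeros (v : V n) (hv : v ⬝ᵥ v = (n : ZMod 3) + 1) :
    ∃ i j : Fin n, i ≠ j ∧ v i = 0 ∧ v j = 0 := by
  have hsq : ∀ a : ZMod 3, a * a = if a ≠ 0 then 1 else 0 := by decide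
  set Z : Finset (Fin n) := Finset.univ.filter (fun k => v k = 0) with hZ
  have h1 : v ⬝ᵥ v = (((Finset.univ.filter (fun k => v k ≠ 0)).card : ℕ) : ZMod 3) := by
    unfold dotProduct
    simp only [hsq]
    rw [← Finset.sum_boole]
  have h2 : Z.card + (Finset.univ.filter (fun k => v k ≠ 0)).card = n := by
    have := Finset.card_filter_add_card_filter_not (s := (Finset.univ : Finset (Fin n)))
      (fun k => v k = 0)
    simpa using this
  have h3 : 1 < Z.card := by
    by_contra hcon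
    rw [h1] at hv
    have h4 : ((Z.card + (Finset.univ.filter (fun k => v k ≠ 0)).card : ℕ) : ZMod 3) = n := by
      rw [h2]
    rw [Nat.cast_add, hv] at h4
    have h5 : ((Z.card : ℕ) : ZMod 3) + 1 = 0 := by
      linear_combination h4
    interval_cases hc : Z.card
    · revert h5; simp
    · revert h5; decide
  obtain ⟨i, hi, j, hj, hij⟩ := Finset.one_lt_card.1 h3
  rw [hZ, Finset.mem_filter] at hi hj
  exact ⟨i, j, hij, hi.2, hj.2⟩

/-- stabiliser of the line spanned by `v0` -/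
def S (n : ℕ) : Subgroup (Omega n) where
  carrier := {g | g.1.1 *ᵥ v0 n = v0 n ∨ g.1.1 *ᵥ v0 n = - v0 n}
  mul_mem' := by
    intro g h hg hh
    show (g * h).1.1 *ᵥ v0 n = v0 n ∨ (g * h).1.1 *ᵥ v0 n = - v0 n
    rw [omega_mul]
    rcases hg with hg | hg <;> rcases hh with hh | hh <;> rw [hh] <;>
      simp [mulVec_neg, hg]
  one_mem' := by
    left
    exact omega_one _
  inv_mem' := by
    intro g hg
    have h1 : ∀ v, g⁻¹.1.1 *ᵥ (g.1.1 *ᵥ v) = v := by
      intro v
      rw [← omega_mul, inv_mul_cancel, omega_one]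
    rcases hg with hg | hg
    · left
      have := h1 (v0 n)
      rwa [hg] at this
    · right
      have := h1 (v0 n)
      rw [hg, mulVec_neg] at this
      rw [← neg_eq_iff_eq_neg]
      exact this

lemma mem_S (g : Omega n) : g ∈ S n ↔ g.1.1 *ᵥ v0 n = v0 n ∨ g.1.1 *ᵥ v0 n = - v0 n := Iff.rfl

lemma third (hn : 5 ≤ n) (i k : Fin n) : ∃ j : Fin n, j ≠ i ∧ j ≠ k := by
  classical
  have h : ({i, k} : Finset (Fin n)).card < (Finset.univ : Finset (Fin n)).card := by
    refine lt_of_le_of_lt Finset.card_le_two ?_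
    rw [Finset.card_univ, Fintype.card_fin]
    omega
  obtain ⟨j, _, hj⟩ := Finset.exists_mem_notMem_of_card_lt_card h
  simp only [Finset.mem_insert, Finset.mem_singleton, not_or] at hj
  exact ⟨j, hj.1, hj.2⟩

lemma center_diag (hn : 5 ≤ n) (z : Omega n) (hz : z ∈ Subgroup.center (Omega n))
    (k i : Fin n) (hik : i ≠ k) : (z.1.1 *ᵥ (Pi.single k 1 : V n)) i = 0 := by
  rw [Subgroup.mem_center_iff] at hz
  obtain ⟨j, hji, hjk⟩ := third hn i k
  have h1 : (d i j * z).1.1 *ᵥ (Pi.single k 1 : V n) = (z * d i j).1.1 *ᵥ (Pi.single k 1 : V n) := by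
    rw [hz]
  rw [omega_mul, omega_mul] at h1
  have h2 : (d i j).1.1 *ᵥ (Pi.single k 1 : V n) = Pi.single k 1 := by
    ext m
    rw [d_mulVec (Ne.symm hji)]
    by_cases hm : m = k
    · subst hm
      rw [if_neg (by simp [Ne.symm hik, Ne.symm hjk])]
    · simp [hm]
  rw [h2] at h1
  have h3 := congrFun h1 i
  rw [d_mulVec (Ne.symm hji), if_pos (Or.inl rfl)] at h3
  revert h3
  generalize (z.1.1 *ᵥ (Pi.single k 1 : V n)) i = y
  revert y
  decide

lemma center_diag' (hn : 5 ≤ n) (z : Omega n) (hz : z ∈ Subgroup.center (Omega n))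
    (k : Fin n) : z.1.1 *ᵥ (Pi.single k 1 : V n) =
      Pi.single k ((z.1.1 *ᵥ (Pi.single k 1 : V n)) k) := by
  ext i
  by_cases h : i = k
  · subst h; simp
  · rw [center_diag hn z hz k i h, Pi.single_eq_of_ne h]

lemma center_const (hn : 5 ≤ n) (z : Omega n) (hz : z ∈ Subgroup.center (Omega n))
    (k m : Fin n) (hkm : k ≠ m) : (z.1.1 *ᵥ (Pi.single k 1 : V n)) k =
      (z.1.1 *ᵥ (Pi.single m 1 : V n)) m := by
  have hz' := hz
  rw [Subgroup.mem_center_iff] at hz'
  obtain ⟨l, hlk, hlm⟩ := third hn k m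
  set s := Equiv.swap k l with hs
  set t := Equiv.swap k m with ht
  have hpi : t⁻¹ (s⁻¹ (t (s k))) = m := by
    rw [hs, ht, Equiv.swap_inv, Equiv.swap_inv, Equiv.swap_apply_left,
      Equiv.swap_apply_of_ne_of_ne hlk hlm, Equiv.swap_apply_right, Equiv.swap_apply_left]
  have hc : (cyc s t).1.1 *ᵥ (Pi.single m 1 : V n) = Pi.single k 1 := by
    ext x
    rw [cyc_mulVec]
    by_cases hx : x = k
    · subst hx
      rw [hpi]; simp
    · have : t⁻¹ (s⁻¹ (t (s x))) ≠ m := by
        intro h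
        apply hx
        rw [← hpi] at h
        simpa using h
      rw [Pi.single_eq_of_ne this, Pi.single_eq_of_ne hx]
  have h1 : (cyc s t * z).1.1 *ᵥ (Pi.single m 1 : V n) =
      (z * cyc s t).1.1 *ᵥ (Pi.single m 1 : V n) := by
    rw [hz']
  rw [omega_mul, omega_mul, hc] at h1
  have h2 := congrFun h1 k
  rw [cyc_mulVec, hpi] at h2
  exact h2.symm

/-- central elements of `Omega` are scalar -/
lemma center_scalar (hn : 5 ≤ n) (z : Omega n) (hz : z ∈ Subgroup.center (Omega n)) :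
    ∃ c : ZMod 3, ∀ v : V n, z.1.1 *ᵥ v = c • v := by
  let k0 : Fin n := ⟨0, by omega⟩
  refine ⟨(z.1.1 *ᵥ (Pi.single k0 1 : V n)) k0, fun v => ?_⟩
  have hall : ∀ k : Fin n, z.1.1 *ᵥ (Pi.single k 1 : V n) =
      (z.1.1 *ᵥ (Pi.single k0 1 : V n)) k0 • Pi.single k 1 := by
    intro k
    rw [center_diag' hn z hz k]
    by_cases h : k = k0
    · rw [h]
      ext i
      by_cases hi : i = k0
      · rw [hi]; simp
      · simp [hi]
    · rw [center_const hn z hz k k0 h]
      ext i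
      by_cases hi : i = k
      · subst hi; simp
      · simp [hi]
  have hv : v = ∑ k, v k • (Pi.single k 1 : V n) := by
    ext i
    simp [Finset.sum_apply, Pi.single_apply]
  rw [hv, mulVec_sum, Finset.smul_sum]
  refine Finset.sum_congr rfl fun k _ => ?_
  rw [mulVec_smul, hall k, smul_comm]

lemma center_le_S (hn : 5 ≤ n) : Subgroup.center (Omega n) ≤ S n := by
  intro z hz
  obtain ⟨c, hc⟩ := center_scalar hn z hz
  rw [mem_S, hc]
  have h : c = 0 ∨ c = 1 ∨ c = -1 := by
    have : ∀ a : ZMod 3, a = 0 ∨ a = 1 ∨ a = -1 := by decide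
    exact this c
  rcases h with h | h | h
  · exfalso
    have h1 : z⁻¹.1.1 *ᵥ (z.1.1 *ᵥ v0 n) = v0 n := by
      rw [← omega_mul, inv_mul_cancel, omega_one]
    rw [hc, h, zero_smul, mulVec_zero] at h1
    have h2 := congrFun h1 ⟨0, by omega⟩
    simp [v0, s0] at h2
  · left; rw [h, one_smul]
  · right; rw [h, neg_smul, one_smul]

lemma d_not_center (hn : 5 ≤ n) {i j : Fin n} (hij : i ≠ j) :
    d i j ∉ Subgroup.center (Omega n) := by
  intro h
  obtain ⟨c, hc⟩ := center_scalar hn _ h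
  obtain ⟨k, hki, hkj⟩ := third hn i j
  have h1 := congrFun (hc (fun _ => 1)) i
  have h2 := congrFun (hc (fun _ => 1)) k
  rw [d_mulVec hij] at h1 h2
  rw [if_pos (Or.inl rfl)] at h1
  rw [if_neg (by simp [hki, hkj])] at h2
  rw [Pi.smul_apply] at h1 h2
  rw [← h2] at h1
  revert h1
  decide

/-- the elementary abelian `2`-subgroup of `POmega_n(3)` -/
def A (n : ℕ) : Subgroup (POmega n) :=
  Subgroup.closure {x | ∃ i j : Fin n, i ≠ j ∧ x = (QuotientGroup.mk (d i j) : POmega n)}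

lemma A_comm : ∀ x ∈ A n, ∀ y ∈ A n, x * y = y * x := by
  intro x hx y hy
  refine Subgroup.closure_induction₂ (p := fun x y _ _ => x * y = y * x) ?_ ?_ ?_ ?_ ?_ ?_ ?_ hx hy
  · rintro _ _ ⟨i, j, hij, rfl⟩ ⟨k, l, hkl, rfl⟩
    rw [← QuotientGroup.mk_mul, ← QuotientGroup.mk_mul, d_comm hij hkl]
  · intro x _; simp
  · intro x _; simp
  · intro x y z _ _ _ h1 h2
    exact (Commute.mul_left (show Commute x z from h1) (show Commute y z from h2))
  · intro x y z _ _ _ h1 h2
    exact (Commute.mul_right (show Commute z x from h1) (show Commute z y from h2))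
  · intro x y _ _ h
    exact (Commute.inv_left (show Commute x y from h))
  · intro x y _ _ h
    exact (Commute.inv_right (show Commute x y from h))

lemma A_sq : ∀ x ∈ A n, x ^ 2 = 1 := by
  intro x hx
  refine Subgroup.closure_induction (p := fun x _ => x ^ 2 = 1) ?_ ?_ ?_ ?_ hx
  · rintro _ ⟨i, j, hij, rfl⟩
    rw [pow_two, ← QuotientGroup.mk_mul, d_sq hij, QuotientGroup.mk_one]
  · simp
  · intro x y hx hy h1 h2
    rw [(show Commute x y from A_comm x hx y hy).mul_pow, h1, h2, one_mul]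
  · intro x _ h
    rw [inv_pow, h, inv_one]

/-- the image of the stabiliser -/
def H (n : ℕ) : Subgroup (POmega n) := (S n).map (QuotientGroup.mk' _)

lemma H_ne_top (hn : 5 ≤ n) : H n ≠ ⊤ := by
  intro h
  have h1 : (H n).comap (QuotientGroup.mk' _) = S n := by
    rw [H, Subgroup.comap_map_eq, QuotientGroup.ker_mk']
    exact sup_eq_left.2 (center_le_S hn)
  rw [h, Subgroup.comap_top] at h1
  let i0 : Fin n := ⟨0, by omega⟩
  let i3 : Fin n := ⟨3, by omega⟩
  let i4 : Fin n := ⟨4, by omega⟩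
  have h03 : i0 ≠ i3 := by simp [i0, i3]
  have h04 : i0 ≠ i4 := by simp [i0, i4]
  have h34 : i3 ≠ i4 := by simp [i3, i4]
  have h2 : cyc (Equiv.swap i0 i4) (Equiv.swap i0 i3) ∈ S n := h1 ▸ Subgroup.mem_top _
  have hpi : (Equiv.swap i0 i3)⁻¹ ((Equiv.swap i0 i4)⁻¹ ((Equiv.swap i0 i3)
      ((Equiv.swap i0 i4) i0))) = i3 := by
    rw [Equiv.swap_inv, Equiv.swap_inv, Equiv.swap_apply_left,
      Equiv.swap_apply_of_ne_of_ne (Ne.symm h04) (Ne.symm h34), Equiv.swap_apply_right,
      Equiv.swap_apply_left]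
  have hs : s0 n ≤ 3 := by unfold s0; omega
  have hv3 : v0 n i3 = 0 := by
    show (if (3 : ℕ) < s0 n then (1 : ZMod 3) else 0) = 0
    rw [if_neg (by omega)]
  have hv0 : v0 n i0 = 1 := by
    show (if (0 : ℕ) < s0 n then (1 : ZMod 3) else 0) = 1
    rw [if_pos (by unfold s0; omega)]
  rw [mem_S] at h2
  rcases h2 with h2 | h2
  · have h3 := congrFun h2 i0
    rw [cyc_mulVec, hpi, hv3, hv0] at h3
    exact absurd h3 (by decide)
  · have h3 := congrFun h2 i0
    rw [cyc_mulVec, hpi, hv3, Pi.neg_apply, hv0] at h3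
    exact absurd h3 (by decide)

end aux

/-- For every `n ≥ 5` the simple group `POmega_n(3)` attached to the quadratic form
`x_1² + ... + x_n²` over `F_3`, in its defining characteristic `3`, does not have property (*). -/
theorem result (n : ℕ) (hn : 5 ≤ n) : ¬ StarProperty (POmega n) 3 := by
  intro hstar
  have hcop : ∀ x ∈ A n, (orderOf x).Coprime 3 := by
    intro x hx
    have h2 : orderOf x ∣ 2 := orderOf_dvd_of_pow_eq_one (A_sq x hx)
    exact Nat.Coprime.coprime_dvd_left h2 (by norm_num)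
  obtain ⟨x, hx⟩ := hstar (A n) A_comm hcop (H n) (H_ne_top hn)
  obtain ⟨y, rfl⟩ := QuotientGroup.mk_surjective x
  set v : V n := y.1.1 *ᵥ v0 n with hv
  have hnorm : v ⬝ᵥ v = (n : ZMod 3) + 1 := by
    rw [hv, norm_inv, v0_norm hn]
  obtain ⟨i, j, hij, hi, hj⟩ := two_zeros v hnorm
  have hfix : (d i j).1.1 *ᵥ v = v := by
    ext k
    rw [d_mulVec hij]
    by_cases h : k = i ∨ k = j
    · rw [if_pos h]
      rcases h with h | h
      · rw [h, hi, neg_zero]
      · rw [h, hj, neg_zero]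
    · rw [if_neg h]
  have hS : y⁻¹ * d i j * y ∈ S n := by
    rw [mem_S]
    left
    rw [omega_mul, omega_mul, ← hv, hfix, hv, ← omega_mul, inv_mul_cancel, omega_one]
  have hmem : (QuotientGroup.mk y : POmega n)⁻¹ * QuotientGroup.mk (d i j) * QuotientGroup.mk y
      ∈ H n := by
    rw [← QuotientGroup.mk_inv, ← QuotientGroup.mk_mul, ← QuotientGroup.mk_mul]
    exact Subgroup.mem_map_of_mem _ hS
  have h1 := hx _ (Subgroup.subset_closure ⟨i, j, hij, rfl⟩) hmem
  have h2 : (QuotientGroup.mk (d i j) : POmega n) = 1 := by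
    have : (QuotientGroup.mk (d i j) : POmega n) = (QuotientGroup.mk y) *
      ((QuotientGroup.mk y : POmega n)⁻¹ * QuotientGroup.mk (d i j) * QuotientGroup.mk y) *
      (QuotientGroup.mk y)⁻¹ := by group
    rw [this, h1]
    group
  exact d_not_center hn hij ((QuotientGroup.eq_one_iff _).1 h2)

end Pool.Agent.Results.MP_1b60fb_al.OrthogonalThree
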