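import Mathlib

set_option autoImplicit false

open Matrix
open scoped commutatorElement

namespace Pool.Agent.Results.MP_1b60fb_al.OrthogonalTwo

/-- Property (*) of a group `G`, relative to the defining characteristic `p`: for every abelian
subgroup `A` all of whose elements have order coprime to `p`, and every proper subgroup `H`,
some conjugate `A ^ x = x⁻¹ A x` meets `H` trivially. -/
def StarProperty (G : Type) [Group G] (p : ℕ) : Prop :=
  ∀ A : Subgroup G, (∀ a ∈ A, ∀ b ∈ A, a * b = b * a) → (∀ a ∈ A, (orderOf a).Coprime p) →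
    ∀ H : Subgroup G, H ≠ ⊤ → ∃ x : G, ∀ a ∈ A, x⁻¹ * a * x ∈ H → x⁻¹ * a * x = 1

/-- The quadratic form `∑ (x_i² + x_i y_i + y_i²)` on `F_2^{2n}`: the orthogonal sum of `n` copies
of the anisotropic plane. It has type `+` for even `n` and type `-` for odd `n`. -/
def Q {n : ℕ} (v : Fin n ⊕ Fin n → ZMod 2) : ZMod 2 :=
  ∑ i, (v (Sum.inl i) ^ 2 + v (Sum.inl i) * v (Sum.inr i) + v (Sum.inr i) ^ 2)

/-- `g` preserves the quadratic form `Q` -/
def Preserves {n : ℕ} (g : GL (Fin n ⊕ Fin n) (ZMod 2)) : Prop :=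
  ∀ v : Fin n ⊕ Fin n → ZMod 2, Q (g.1 *ᵥ v) = Q v

section aux0

variable {n : ℕ}

lemma gl_mul (g h : GL (Fin n ⊕ Fin n) (ZMod 2)) (v : Fin n ⊕ Fin n → ZMod 2) :
    (g * h).1 *ᵥ v = g.1 *ᵥ (h.1 *ᵥ v) := by
  rw [mulVec_mulVec]; rfl

lemma gl_one (v : Fin n ⊕ Fin n → ZMod 2) : (1 : GL (Fin n ⊕ Fin n) (ZMod 2)).1 *ᵥ v = v :=
  one_mulVec v

lemma preserves_mul {g h : GL (Fin n ⊕ Fin n) (ZMod 2)} (hg : Preserves g) (hh : Preserves h) :
    Preserves (g * h) := by
  intro v
  rw [gl_mul, hg, hh]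

lemma preserves_one : Preserves (1 : GL (Fin n ⊕ Fin n) (ZMod 2)) := by
  intro v
  rw [gl_one]

lemma preserves_inv {g : GL (Fin n ⊕ Fin n) (ZMod 2)} (hg : Preserves g) : Preserves g⁻¹ := by
  intro v
  rw [← hg (g⁻¹.1 *ᵥ v), ← gl_mul, mul_inv_cancel, gl_one]

end aux0

/-- The isometry group `O_{2n}^±(2)` of `Q`. -/
def O (n : ℕ) : Subgroup (GL (Fin n ⊕ Fin n) (ZMod 2)) where
  carrier := {g | Preserves g}
  mul_mem' := preserves_mul
  one_mem' := preserves_one
  inv_mem' := preserves_inv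

/-- `Omega_{2n}^±(2)`: the derived subgroup of the isometry group of `Q`. -/
abbrev Omega (n : ℕ) : Subgroup (O n) := commutator (O n)

section aux

variable {n : ℕ}

/-- vectors -/
abbrev V (n : ℕ) : Type := Fin n ⊕ Fin n → ZMod 2

lemma O_ext {g h : O n} (H : ∀ (v : V n), g.1.1 *ᵥ v = h.1.1 *ᵥ v) : g = h := by
  apply Subtype.ext
  apply Units.ext
  exact Matrix.ext_of_mulVec_single (fun i => H _)

lemma O_mul (g h : O n) (v : V n) : (g * h).1.1 *ᵥ v = g.1.1 *ᵥ (h.1.1 *ᵥ v) := gl_mul _ _ _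

lemma O_one (v : V n) : (1 : O n).1.1 *ᵥ v = v := gl_one v

/-- the matrix acting by `(x, y) ↦ (y, x + y)` on the `i`-th plane -/
def aM (i : Fin n) : Matrix (Fin n ⊕ Fin n) (Fin n ⊕ Fin n) (ZMod 2) :=
  fromBlocks (diagonal fun j => if j = i then 0 else 1) (diagonal fun j => if j = i then 1 else 0)
    (diagonal fun j => if j = i then 1 else 0) 1

/-- the matrix acting by `(x, y) ↦ (y, x)` on the `i`-th plane -/
def tM (i : Fin n) : Matrix (Fin n ⊕ Fin n) (Fin n ⊕ Fin n) (ZMod 2) :=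
  fromBlocks (diagonal fun j => if j = i then 0 else 1) (diagonal fun j => if j = i then 1 else 0)
    (diagonal fun j => if j = i then 1 else 0) (diagonal fun j => if j = i then 0 else 1)

lemma aM_inl (i : Fin n) (v : V n) (j : Fin n) :
    (aM i *ᵥ v) (Sum.inl j) = if j = i then v (Sum.inr j) else v (Sum.inl j) := by
  rw [aM, fromBlocks_mulVec]
  simp only [Sum.elim_inl, Pi.add_apply, mulVec_diagonal, Function.comp]
  by_cases h : j = i <;> simp [h]

lemma aM_inr (i : Fin n) (v : V n) (j : Fin n) :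
    (aM i *ᵥ v) (Sum.inr j) = if j = i then v (Sum.inl j) + v (Sum.inr j) else v (Sum.inr j) := by
  rw [aM, fromBlocks_mulVec]
  simp only [Sum.elim_inr, Pi.add_apply, mulVec_diagonal, Function.comp, one_mulVec]
  by_cases h : j = i <;> simp [h]

lemma tM_inl (i : Fin n) (v : V n) (j : Fin n) :
    (tM i *ᵥ v) (Sum.inl j) = if j = i then v (Sum.inr j) else v (Sum.inl j) := by
  rw [tM, fromBlocks_mulVec]
  simp only [Sum.elim_inl, Pi.add_apply, mulVec_diagonal, Function.comp]
  by_cases h : j = i <;> simp [h]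

lemma tM_inr (i : Fin n) (v : V n) (j : Fin n) :
    (tM i *ᵥ v) (Sum.inr j) = if j = i then v (Sum.inl j) else v (Sum.inr j) := by
  rw [tM, fromBlocks_mulVec]
  simp only [Sum.elim_inr, Pi.add_apply, mulVec_diagonal, Function.comp]
  by_cases h : j = i <;> simp [h]

lemma mat_ext {M N : Matrix (Fin n ⊕ Fin n) (Fin n ⊕ Fin n) (ZMod 2)}
    (H : ∀ (v : V n), M *ᵥ v = N *ᵥ v) : M = N :=
  Matrix.ext_of_mulVec_single (fun i => H _)

lemma tM_sq (i : Fin n) : tM i * tM i = 1 := by
  apply mat_ext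
  intro v
  rw [← mulVec_mulVec, one_mulVec]
  ext x
  rcases x with x | x
  · rw [tM_inl, tM_inr, tM_inl]
    by_cases h : x = i <;> simp [h]
  · rw [tM_inr, tM_inr, tM_inl]
    by_cases h : x = i <;> simp [h]

lemma aM_cube (i : Fin n) : aM i * aM i * aM i = 1 := by
  have h2 : ∀ x : ZMod 2, x + x = 0 := CharTwo.add_self_eq_zero
  apply mat_ext
  intro v
  rw [← mulVec_mulVec, ← mulVec_mulVec, one_mulVec]
  ext x
  rcases x with x | x
  · simp only [aM_inl, aM_inr]
    by_cases h : x = i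
    · subst h
      simp only [if_true]
      linear_combination h2 (v (Sum.inr x))
    · simp [h]
  · simp only [aM_inl, aM_inr]
    by_cases h : x = i
    · subst h
      simp only [if_true]
      linear_combination h2 (v (Sum.inl x)) + h2 (v (Sum.inr x))
    · simp [h]

/-- `aM` as an element of the isometry group -/
def a0 (i : Fin n) : O n :=
  ⟨⟨aM i, aM i * aM i, by rw [← mul_assoc]; exact aM_cube i, aM_cube i⟩, by
    intro v
    unfold Q
    refine Finset.sum_congr rfl fun j _ => ?_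
    show (aM i *ᵥ v) (Sum.inl j) ^ 2 + (aM i *ᵥ v) (Sum.inl j) * (aM i *ᵥ v) (Sum.inr j) +
      (aM i *ᵥ v) (Sum.inr j) ^ 2 = _
    rw [aM_inl, aM_inr]
    by_cases h : j = i
    · subst h
      simp only [if_true]
      generalize v (Sum.inl j) = x
      generalize v (Sum.inr j) = y
      revert x y
      decide
    · simp [h]⟩

/-- `tM` as an element of the isometry group -/
def t0 (i : Fin n) : O n :=
  ⟨⟨tM i, tM i, tM_sq i, tM_sq i⟩, by
    intro v
    unfold Q
    refine Finset.sum_congr rfl fun j _ => ?_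
    show (tM i *ᵥ v) (Sum.inl j) ^ 2 + (tM i *ᵥ v) (Sum.inl j) * (tM i *ᵥ v) (Sum.inr j) +
      (tM i *ᵥ v) (Sum.inr j) ^ 2 = _
    rw [tM_inl, tM_inr]
    by_cases h : j = i
    · subst h
      simp only [if_true]
      ring
    · simp [h]⟩

lemma a0_inl (i : Fin n) (v : V n) (j : Fin n) :
    ((a0 i).1.1 *ᵥ v) (Sum.inl j) = if j = i then v (Sum.inr j) else v (Sum.inl j) :=
  aM_inl i v j

lemma a0_inr (i : Fin n) (v : V n) (j : Fin n) : ((a0 i).1.1 *ᵥ v) (Sum.inr j) =
    if j = i then v (Sum.inl j) + v (Sum.inr j) else v (Sum.inr j) :=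
  aM_inr i v j

lemma t0_inl (i : Fin n) (v : V n) (j : Fin n) :
    ((t0 i).1.1 *ᵥ v) (Sum.inl j) = if j = i then v (Sum.inr j) else v (Sum.inl j) :=
  tM_inl i v j

lemma t0_inr (i : Fin n) (v : V n) (j : Fin n) :
    ((t0 i).1.1 *ᵥ v) (Sum.inr j) = if j = i then v (Sum.inl j) else v (Sum.inr j) :=
  tM_inr i v j

lemma t0_mul_self (i : Fin n) : t0 i * t0 i = 1 := by
  apply Subtype.ext
  apply Units.ext
  exact tM_sq i

lemma a0_cube' (i : Fin n) : a0 i * a0 i * a0 i = 1 := by
  apply Subtype.ext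
  apply Units.ext
  exact aM_cube i

lemma t0_inv (i : Fin n) : (t0 i)⁻¹ = t0 i := inv_eq_of_mul_eq_one_left (t0_mul_self i)

lemma a0_inv (i : Fin n) : (a0 i)⁻¹ = a0 i * a0 i := by
  rw [inv_eq_iff_mul_eq_one, ← mul_assoc]
  exact a0_cube' i

lemma conj_a0 (i : Fin n) : ⁅t0 i, a0 i⁆ = a0 i := by
  rw [commutatorElement_def, t0_inv, a0_inv]
  apply O_ext
  intro v
  rw [O_mul, O_mul, O_mul, O_mul]
  ext x
  by_cases h : x = Sum.inl i ∨ x = Sum.inr i
  · rcases h with h | h
    · subst h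
      simp only [a0_inl, a0_inr, t0_inl, t0_inr, if_true]
      generalize v (Sum.inl i) = s
      generalize v (Sum.inr i) = t
      revert s t
      decide
    · subst h
      simp only [a0_inl, a0_inr, t0_inl, t0_inr, if_true]
  · push Not at h
    rcases x with x | x
    · have hx : x ≠ i := fun e => h.1 (by rw [e])
      simp only [a0_inl, a0_inr, t0_inl, t0_inr, hx, if_false]
    · have hx : x ≠ i := fun e => h.2 (by rw [e])
      simp only [a0_inl, a0_inr, t0_inl, t0_inr, hx, if_false]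

/-- the element of order three acting on the `i`-th plane, in `Omega` -/
def a (i : Fin n) : Omega n := ⟨a0 i, by
  rw [← conj_a0 i, Omega, commutator_def]
  exact Subgroup.commutator_mem_commutator (Subgroup.mem_top _) (Subgroup.mem_top _)⟩

lemma a_inl (i : Fin n) (v : V n) (j : Fin n) :
    ((a i).1.1.1 *ᵥ v) (Sum.inl j) = if j = i then v (Sum.inr j) else v (Sum.inl j) :=
  aM_inl i v j

lemma a_inr (i : Fin n) (v : V n) (j : Fin n) : ((a i).1.1.1 *ᵥ v) (Sum.inr j) =
    if j = i then v (Sum.inl j) + v (Sum.inr j) else v (Sum.inr j) :=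
  aM_inr i v j

lemma omega_ext {g h : Omega n} (H : ∀ (v : V n), g.1.1.1 *ᵥ v = h.1.1.1 *ᵥ v) : g = h :=
  Subtype.ext (O_ext H)

lemma omega_mul (g h : Omega n) (v : V n) : (g * h).1.1.1 *ᵥ v = g.1.1.1 *ᵥ (h.1.1.1 *ᵥ v) :=
  gl_mul _ _ _

lemma omega_one (v : V n) : (1 : Omega n).1.1.1 *ᵥ v = v := gl_one v

lemma a_cube (i : Fin n) : a i ^ 3 = 1 := by
  apply Subtype.ext
  have h := a0_cube' i
  show (a0 i) ^ 3 = 1
  rw [pow_succ, pow_succ, pow_one]
  exact h

lemma a_comm (i j : Fin n) : a i * a j = a j * a i := by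
  by_cases hij : i = j
  · rw [hij]
  apply omega_ext
  intro v
  rw [omega_mul, omega_mul]
  ext x
  rcases x with x | x
  · simp only [a_inl, a_inr]
    by_cases h : x = i
    · subst h; simp [hij]
    · by_cases h' : x = j
      · subst h'; simp [h]
      · simp [h, h']
  · simp only [a_inl, a_inr]
    by_cases h : x = i
    · subst h; simp [hij]
    · by_cases h' : x = j
      · subst h'; simp [h]
      · simp [h, h']

/-- the elementary abelian `3`-subgroup -/
def A (n : ℕ) : Subgroup (Omega n) :=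
  Subgroup.closure (Set.range a)

lemma A_comm : ∀ x ∈ A n, ∀ y ∈ A n, x * y = y * x := by
  intro x hx y hy
  refine Subgroup.closure_induction₂ (p := fun x y _ _ => x * y = y * x) ?_ ?_ ?_ ?_ ?_ ?_ ?_ hx hy
  · rintro _ _ ⟨i, rfl⟩ ⟨j, rfl⟩
    exact a_comm i j
  · intro x _; simp
  · intro x _; simp
  · intro x y z _ _ _ h1 h2
    exact (Commute.mul_left (show Commute x z from h1) (show Commute y z from h2))
  · intro x y z _ _ _ h1 h2
    exact (Commute.mul_right (show Commute z x from h1) (show Commute z y from h2))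
  · intro x y _ _ h
    exact (Commute.inv_left (show Commute x y from h))
  · intro x y _ _ h
    exact (Commute.inv_right (show Commute x y from h))

lemma A_cube : ∀ x ∈ A n, x ^ 3 = 1 := by
  intro x hx
  refine Subgroup.closure_induction (p := fun x _ => x ^ 3 = 1) ?_ ?_ ?_ ?_ hx
  · rintro _ ⟨i, rfl⟩
    exact a_cube i
  · simp
  · intro x y hx hy h1 h2
    rw [(show Commute x y from A_comm x hx y hy).mul_pow, h1, h2, one_mul]
  · intro x _ h
    rw [inv_pow, h, inv_one]

/-- number of leading nonzero coordinates -/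
def s0 (n : ℕ) : ℕ := n % 2 + 1

/-- the reference vector, with `Q = n + 1` -/
def v0 (n : ℕ) : V n := Sum.elim (fun k => if k.val < s0 n then 1 else 0) (fun _ => 0)

lemma Q_v0 (hn : 3 ≤ n) : Q (v0 n) = (n : ZMod 2) + 1 := by
  have h1 : Q (v0 n) = ∑ k : Fin n, if k.val < s0 n then (1 : ZMod 2) else 0 := by
    unfold Q v0
    refine Finset.sum_congr rfl fun k _ => ?_
    by_cases h : k.val < s0 n <;> simp [h]
  rw [h1, Fin.sum_univ_eq_sum_range (fun k => if k < s0 n then (1 : ZMod 2) else 0) n,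
    ← Finset.sum_filter]
  have h2 : (Finset.range n).filter (fun k => k < s0 n) = Finset.range (s0 n) := by
    ext k
    rw [Finset.mem_filter, Finset.mem_range, Finset.mem_range]
    have : s0 n ≤ n := by unfold s0; omega
    omega
  rw [h2]
  simp only [Finset.sum_const, Finset.card_range, nsmul_eq_mul, mul_one, s0]
  push_cast
  congr 1
  exact ZMod.natCast_mod n 2

/-- if `Q v = n + 1`, then `v` vanishes on some plane. -/
lemma exists_zero (v : V n) (hv : Q v = (n : ZMod 2) + 1) :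
    ∃ i : Fin n, v (Sum.inl i) = 0 ∧ v (Sum.inr i) = 0 := by
  by_contra hcon
  push Not at hcon
  have hq : ∀ x y : ZMod 2, (x = 0 → y ≠ 0) → x ^ 2 + x * y + y ^ 2 = 1 := by decide
  have h1 : Q v = (n : ZMod 2) := by
    unfold Q
    rw [Finset.sum_congr rfl fun i _ => hq _ _ (hcon i)]
    simp
  rw [h1] at hv
  have h2 : (1 : ZMod 2) = 0 := by linear_combination -hv
  exact absurd h2 (by decide)

/-- the stabiliser of `v0` -/
def H (n : ℕ) : Subgroup (Omega n) where
  carrier := {g | g.1.1.1 *ᵥ (v0 n) = v0 n}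
  mul_mem' := by
    intro g h hg hh
    show (g * h).1.1.1 *ᵥ (v0 n) = v0 n
    rw [omega_mul, hh, hg]
  one_mem' := omega_one _
  inv_mem' := by
    intro g hg
    show g⁻¹.1.1.1 *ᵥ (v0 n) = v0 n
    have h1 : g⁻¹.1.1.1 *ᵥ (g.1.1.1 *ᵥ (v0 n)) = v0 n := by
      rw [← omega_mul, inv_mul_cancel, omega_one]
    rwa [hg] at h1

lemma mem_H (g : Omega n) : g ∈ H n ↔ g.1.1.1 *ᵥ (v0 n) = v0 n := Iff.rfl

lemma H_ne_top (hn : 3 ≤ n) : H n ≠ ⊤ := by
  intro h
  let i0 : Fin n := ⟨0, by omega⟩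
  have h1 : a i0 ∈ H n := h ▸ Subgroup.mem_top _
  rw [mem_H] at h1
  have h2 := congrFun h1 (Sum.inl i0)
  rw [a_inl, if_pos rfl] at h2
  have h3 : v0 n (Sum.inl i0) = 1 := by
    show (if (0 : ℕ) < s0 n then (1 : ZMod 2) else 0) = 1
    rw [if_pos (by unfold s0; omega)]
  have h4 : v0 n (Sum.inr i0) = 0 := rfl
  rw [h3, h4] at h2
  exact absurd h2 (by decide)

lemma a_ne_one (i : Fin n) : a i ≠ 1 := by
  intro h
  have h1 := a_inl i (Pi.single (Sum.inl i) 1) i
  rw [h, omega_one] at h1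
  simp at h1

end aux

/-- For every `n ≥ 3` the simple group `Omega_{2n}^ε(2)`, with `ε = +` for even `n` and `ε = -` for
odd `n`, in its defining characteristic `2`, does not have property (*). -/
theorem result (n : ℕ) (hn : 3 ≤ n) : ¬ StarProperty (Omega n) 2 := by
  intro hstar
  have hcop : ∀ x ∈ A n, (orderOf x).Coprime 2 := by
    intro x hx
    have h2 : orderOf x ∣ 3 := orderOf_dvd_of_pow_eq_one (A_cube x hx)
    exact Nat.Coprime.coprime_dvd_left h2 (by norm_num)
  obtain ⟨x, hx⟩ := hstar (A n) A_comm hcop (H n) (H_ne_top hn)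
  set v : V n := x.1.1.1 *ᵥ (v0 n) with hv
  have hQ : Q v = (n : ZMod 2) + 1 := by
    rw [hv, x.1.2 (v0 n), Q_v0 hn]
  obtain ⟨i, hi, hi'⟩ := exists_zero v hQ
  have hfix : (a i).1.1.1 *ᵥ v = v := by
    ext k
    rcases k with k | k
    · rw [a_inl]
      by_cases h : k = i
      · rw [if_pos h, h, hi, hi']
      · rw [if_neg h]
    · rw [a_inr]
      by_cases h : k = i
      · rw [if_pos h, h, hi, hi', add_zero]
      · rw [if_neg h]
  have hmem : x⁻¹ * a i * x ∈ H n := by
    rw [mem_H, omega_mul, omega_mul, ← hv, hfix, hv, ← omega_mul, inv_mul_cancel, omega_one]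
  have h1 := hx (a i) (Subgroup.subset_closure ⟨i, rfl⟩) hmem
  apply a_ne_one i
  have : a i = x * (x⁻¹ * a i * x) * x⁻¹ := by group
  rw [this, h1]
  group

end Pool.Agent.Results.MP_1b60fb_al.OrthogonalTwo
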