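import Mathlib

set_option autoImplicit false

open Matrix

namespace Pool.Agent.Results.MP_1b60fb_al.SymplecticTwo

/-- Property (*) of a group `G`, relative to the defining characteristic `p`: for every abelian
subgroup `A` all of whose elements have order coprime to `p`, and every proper subgroup `H`,
some conjugate `A ^ x = x⁻¹ A x` meets `H` trivially. -/
def StarProperty (G : Type) [Group G] (p : ℕ) : Prop :=
  ∀ A : Subgroup G, (∀ a ∈ A, ∀ b ∈ A, a * b = b * a) → (∀ a ∈ A, (orderOf a).Coprime p) →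
    ∀ H : Subgroup G, H ≠ ⊤ → ∃ x : G, ∀ a ∈ A, x⁻¹ * a * x ∈ H → x⁻¹ * a * x = 1

section aux

variable {n : ℕ}

/-- vectors -/
abbrev V (n : ℕ) : Type := Fin n ⊕ Fin n → ZMod 2

/-- the alternating form -/
def B (v w : V n) : ZMod 2 := ∑ i, (v (Sum.inl i) * w (Sum.inr i) + v (Sum.inr i) * w (Sum.inl i))

lemma B_eq (v w : V n) : B v w = v ⬝ᵥ (J (Fin n) (ZMod 2)) *ᵥ w := by
  simp only [B, dotProduct, mulVec, Fintype.sum_sum_type, J, fromBlocks_apply₁₁,
    fromBlocks_apply₁₂, fromBlocks_apply₂₁, fromBlocks_apply₂₂, Matrix.zero_apply, zero_mul,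
    Finset.sum_const_zero, zero_add, add_zero, Matrix.neg_apply, Matrix.one_apply]
  rw [Finset.sum_add_distrib]
  congr 1
  · refine Finset.sum_congr rfl fun i _ => ?_
    congr 1
    rw [Finset.sum_eq_single i]
    · simp only [if_true]
      rw [ZModModule.neg_eq_self]
      simp
    · intro j _ hj
      simp [Ne.symm hj]
    · simp
  · refine Finset.sum_congr rfl fun i _ => ?_
    congr 1
    rw [Finset.sum_eq_single i]
    · simp
    · intro j _ hj
      simp [Ne.symm hj]
    · simp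

lemma B_mulVec (g : symplecticGroup (Fin n) (ZMod 2)) (v w : V n) :
    B (g.1 *ᵥ v) (g.1 *ᵥ w) = B v w := by
  rw [B_eq, B_eq]
  have h := SymplecticGroup.mem_iff'.1 g.2
  conv_rhs => rw [← h]
  rw [← mulVec_mulVec, ← mulVec_mulVec, dotProduct_mulVec, dotProduct_mulVec v,
    vecMul_transpose, ← dotProduct_mulVec]

/-- `q` is a quadratic form (over `F_2`) whose polarisation is `B`. -/
def IsQ (q : V n → ZMod 2) : Prop := ∀ v w, q (v + w) = q v + q w + B v w

lemma B_zero_left (w : V n) : B 0 w = 0 := by simp [B]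

lemma IsQ.zero {q : V n → ZMod 2} (hq : IsQ q) : q 0 = 0 := by
  have := hq 0 0
  rw [B_zero_left, add_zero, add_zero] at this
  have h2 : q 0 + q 0 = 0 := CharTwo.add_self_eq_zero _
  rw [this, h2]

/-- the hyperbolic quadratic form -/
def qh (v : V n) : ZMod 2 := ∑ i, v (Sum.inl i) * v (Sum.inr i)

lemma isQ_qh : IsQ (qh (n := n)) := by
  intro v w
  simp only [qh, B, Pi.add_apply]
  rw [← Finset.sum_add_distrib, ← Finset.sum_add_distrib]
  refine Finset.sum_congr rfl fun i _ => ?_
  ring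

lemma IsQ.eq {q : V n → ZMod 2} (hq : IsQ q) (v : V n) :
    q v = ∑ i, (q (Pi.single (Sum.inl i) 1) * v (Sum.inl i) +
      q (Pi.single (Sum.inr i) 1) * v (Sum.inr i) + v (Sum.inl i) * v (Sum.inr i)) := by
  let l : V n →+ ZMod 2 :=
    { toFun := fun v => q v + qh v
      map_zero' := by rw [hq.zero, isQ_qh.zero, add_zero]
      map_add' := fun v w => by
        rw [hq v w, isQ_qh v w]
        have : B v w + B v w = 0 := CharTwo.add_self_eq_zero _
        linear_combination this }
  let L : V n →ₗ[ZMod 2] ZMod 2 := l.toZModLinearMap 2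
  have h1 : L v = q v + qh v := rfl
  have h2 := LinearMap.pi_apply_eq_sum_univ L v
  have h3 : ∀ x : Fin n ⊕ Fin n, L (fun j => if x = j then 1 else 0) =
      q (Pi.single x 1) := by
    intro x
    have e : (fun j => if x = j then (1 : ZMod 2) else 0) = Pi.single x 1 := by
      ext j
      simp [Pi.single_apply, eq_comm]
    rw [e]
    show q _ + qh _ = _
    have : qh (Pi.single x (1 : ZMod 2) : V n) = 0 := by
      unfold qh
      refine Finset.sum_eq_zero fun i _ => ?_
      rcases x with x | x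
      · simp [Pi.single_apply]
      · simp [Pi.single_apply]
    rw [this, add_zero]
  simp only [h3] at h2
  rw [h1, Fintype.sum_sum_type] at h2
  have h4 : q v = (∑ i, v (Sum.inl i) • q (Pi.single (Sum.inl i) 1) +
      ∑ i, v (Sum.inr i) • q (Pi.single (Sum.inr i) 1)) + qh v := by
    rw [← h2, add_assoc, CharTwo.add_self_eq_zero, add_zero]
  rw [h4, qh, ← Finset.sum_add_distrib, ← Finset.sum_add_distrib]
  refine Finset.sum_congr rfl fun i _ => ?_
  simp only [smul_eq_mul]
  ring

/-- the sign character of `F_2` -/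
def chi (a : ZMod 2) : ℤ := if a = 0 then 1 else -1

lemma chi_add (a b : ZMod 2) : chi (a + b) = chi a * chi b := by
  revert a b; decide

lemma chi_sum {ι : Type} (s : Finset ι) (f : ι → ZMod 2) :
    chi (∑ i ∈ s, f i) = ∏ i ∈ s, chi (f i) := by
  classical
  induction s using Finset.induction_on with
  | empty => simp [chi]
  | insert a s ha ih => rw [Finset.sum_insert ha, Finset.prod_insert ha, chi_add, ih]

/-- the exponential sum -/
def S (q : V n → ZMod 2) : ℤ := ∑ v, chi (q v)

lemma S_eq {q : V n → ZMod 2} (hq : IsQ q) :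
    S q = ∏ i : Fin n, ∑ p : ZMod 2 × ZMod 2,
      chi (q (Pi.single (Sum.inl i) 1) * p.1 + q (Pi.single (Sum.inr i) 1) * p.2 + p.1 * p.2) := by
  rw [Finset.prod_univ_sum]
  unfold S
  let e : (V n) ≃ (Fin n → ZMod 2 × ZMod 2) :=
    (Equiv.sumArrowEquivProdArrow (Fin n) (Fin n) (ZMod 2)).trans
      (Equiv.arrowProdEquivProdArrow (Fin n) (fun _ => ZMod 2) (fun _ => ZMod 2)).symm
  rw [Fintype.piFinset_univ]
  refine Fintype.sum_equiv e _ _ fun v => ?_
  rw [hq.eq v, chi_sum]
  rfl

lemma block_sum (a b : ZMod 2) : (∑ p : ZMod 2 × ZMod 2, chi (a * p.1 + b * p.2 + p.1 * p.2)) =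
    if a = 1 ∧ b = 1 then -2 else 2 := by
  revert a b; decide

lemma S_eq' {q : V n → ZMod 2} (hq : IsQ q) :
    S q = ∏ i : Fin n, if q (Pi.single (Sum.inl i) 1) = 1 ∧ q (Pi.single (Sum.inr i) 1) = 1
      then (-2 : ℤ) else 2 := by
  rw [S_eq hq]
  exact Finset.prod_congr rfl fun i _ => block_sum _ _

/-- the element of order three acting on the `i`-th hyperbolic plane -/
def aM (i : Fin n) : Matrix (Fin n ⊕ Fin n) (Fin n ⊕ Fin n) (ZMod 2) :=
  fromBlocks (diagonal fun j => if j = i then 0 else 1) (diagonal fun j => if j = i then 1 else 0)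
    (diagonal fun j => if j = i then 1 else 0) 1

lemma aM_mem (i : Fin n) : aM i ∈ symplecticGroup (Fin n) (ZMod 2) := by
  rw [aM, SymplecticGroup.fromBlocks_mem_iff]
  simp only [diagonal_transpose, diagonal_mul_diagonal, transpose_one, mul_one, one_mul,
    diagonal_sub]
  refine ⟨?_, trivial, ?_⟩
  · congr 1
    ext j
    ring
  · rw [← diagonal_one]
    congr 1
    ext j
    by_cases h : j = i <;> simp [h]

/-- `aM` as an element of the group -/
def a (i : Fin n) : symplecticGroup (Fin n) (ZMod 2) := ⟨aM i, aM_mem i⟩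

lemma a_mulVec_inl (i : Fin n) (v : V n) (j : Fin n) :
    ((a i).1 *ᵥ v) (Sum.inl j) = if j = i then v (Sum.inr j) else v (Sum.inl j) := by
  show (aM i *ᵥ v) (Sum.inl j) = _
  rw [aM, fromBlocks_mulVec]
  simp only [Sum.elim_inl, Pi.add_apply, mulVec_diagonal, Function.comp]
  by_cases h : j = i <;> simp [h]

lemma a_mulVec_inr (i : Fin n) (v : V n) (j : Fin n) :
    ((a i).1 *ᵥ v) (Sum.inr j) = if j = i then v (Sum.inl j) + v (Sum.inr j) else v (Sum.inr j) := by
  show (aM i *ᵥ v) (Sum.inr j) = _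
  rw [aM, fromBlocks_mulVec]
  simp only [Sum.elim_inr, Pi.add_apply, mulVec_diagonal, Function.comp, one_mulVec]
  by_cases h : j = i <;> simp [h]

lemma ext_of_mulVec {g h : symplecticGroup (Fin n) (ZMod 2)}
    (H : ∀ v : V n, g.1 *ᵥ v = h.1 *ᵥ v) : g = h := by
  apply Subtype.ext
  exact Matrix.ext_of_mulVec_single (fun i => H _)

lemma mul_mulVec (g h : symplecticGroup (Fin n) (ZMod 2)) (v : V n) :
    (g * h).1 *ᵥ v = g.1 *ᵥ (h.1 *ᵥ v) := by
  rw [mulVec_mulVec]; rfl

lemma one_mulVec' (v : V n) : (1 : symplecticGroup (Fin n) (ZMod 2)).1 *ᵥ v = v :=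
  one_mulVec v

lemma a_comm (i j : Fin n) : a i * a j = a j * a i := by
  by_cases hij : i = j
  · rw [hij]
  apply ext_of_mulVec
  intro v
  rw [mul_mulVec, mul_mulVec]
  ext x
  have hji : ¬ j = i := fun h => hij h.symm
  rcases x with x | x
  · simp only [a_mulVec_inl, a_mulVec_inr]
    by_cases h : x = i
    · subst h; simp [hij]
    · by_cases h' : x = j
      · subst h'; simp [h]
      · simp [h, h']
  · simp only [a_mulVec_inl, a_mulVec_inr]
    by_cases h : x = i
    · subst h; simp [hij]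
    · by_cases h' : x = j
      · subst h'; simp [h]
      · simp [h, h']

lemma a_cube (i : Fin n) : a i ^ 3 = 1 := by
  apply ext_of_mulVec
  intro v
  rw [pow_succ, pow_succ, pow_one, mul_mulVec, mul_mulVec, one_mulVec']
  have h2 : ∀ x : ZMod 2, x + x = 0 := CharTwo.add_self_eq_zero
  ext x
  rcases x with x | x
  · simp only [a_mulVec_inl, a_mulVec_inr]
    by_cases h : x = i
    · subst h
      simp only [if_true]
      linear_combination h2 (v (Sum.inr x))
    · simp [h]
  · simp only [a_mulVec_inl, a_mulVec_inr]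
    by_cases h : x = i
    · subst h
      simp only [if_true]
      linear_combination h2 (v (Sum.inl x)) + h2 (v (Sum.inr x))
    · simp [h]

/-- the elementary abelian `3`-subgroup -/
def A (n : ℕ) : Subgroup (symplecticGroup (Fin n) (ZMod 2)) :=
  Subgroup.closure (Set.range a)

lemma A_comm : ∀ x ∈ A n, ∀ y ∈ A n, x * y = y * x := by
  intro x hx y hy
  refine Subgroup.closure_induction₂ (p := fun x y _ _ => x * y = y * x) ?_ ?_ ?_ ?_ ?_ ?_ ?_ hx hy
  · rintro _ _ ⟨i, rfl⟩ ⟨j, rfl⟩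
    exact a_comm i j
  · intro x _; simp
  · intro x _; simp
  · intro x y z _ _ _ h1 h2
    exact (Commute.mul_left (show Commute x z from h1) (show Commute y z from h2))
  · intro x y z _ _ _ h1 h2
    exact (Commute.mul_right (show Commute z x from h1) (show Commute z y from h2))
  · intro x y _ _ h
    exact (Commute.inv_left (show Commute x y from h))
  · intro x y _ _ h
    exact (Commute.inv_right (show Commute x y from h))

lemma A_cube : ∀ x ∈ A n, x ^ 3 = 1 := by
  intro x hx
  refine Subgroup.closure_induction (p := fun x _ => x ^ 3 = 1) ?_ ?_ ?_ ?_ hx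
  · rintro _ ⟨i, rfl⟩
    exact a_cube i
  · simp
  · intro x y hx hy h1 h2
    rw [(show Commute x y from A_comm x hx y hy).mul_pow, h1, h2, one_mul]
  · intro x _ h
    rw [inv_pow, h, inv_one]

/-- the quadratic form of minus type -/
def q0 (i0 : Fin n) (v : V n) : ZMod 2 :=
  v (Sum.inl i0) + v (Sum.inr i0) + ∑ i, v (Sum.inl i) * v (Sum.inr i)

lemma isQ_q0 (i0 : Fin n) : IsQ (q0 i0) := by
  intro v w
  have := isQ_qh v w
  simp only [qh] at this
  simp only [q0, Pi.add_apply] at *
  rw [this]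
  ring

lemma q0_inl (i0 i : Fin n) : q0 i0 (Pi.single (Sum.inl i) 1) = if i = i0 then 1 else 0 := by
  have h : ∑ j, (Pi.single (Sum.inl i) 1 : V n) (Sum.inl j) *
      (Pi.single (Sum.inl i) 1 : V n) (Sum.inr j) = 0 :=
    Finset.sum_eq_zero fun j _ => by simp [Pi.single_apply]
  rw [q0, h]
  by_cases hi : i = i0
  · subst hi; simp
  · simp [Pi.single_apply, hi, Ne.symm hi]

lemma q0_inr (i0 i : Fin n) : q0 i0 (Pi.single (Sum.inr i) 1) = if i = i0 then 1 else 0 := by
  have h : ∑ j, (Pi.single (Sum.inr i) 1 : V n) (Sum.inl j) *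
      (Pi.single (Sum.inr i) 1 : V n) (Sum.inr j) = 0 :=
    Finset.sum_eq_zero fun j _ => by simp [Pi.single_apply]
  rw [q0, h]
  by_cases hi : i = i0
  · subst hi; simp
  · simp [Pi.single_apply, hi, Ne.symm hi]

lemma S_q0 (i0 : Fin n) : S (q0 i0) < 0 := by
  rw [S_eq' (isQ_q0 i0), ← Finset.mul_prod_erase Finset.univ _ (Finset.mem_univ i0)]
  have h1 : (if q0 i0 (Pi.single (Sum.inl i0) 1) = 1 ∧ q0 i0 (Pi.single (Sum.inr i0) 1) = 1
      then (-2 : ℤ) else 2) = -2 := by
    rw [q0_inl, q0_inr]; simp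
  rw [h1]
  have h2 : 0 < ∏ x ∈ Finset.univ.erase i0, (if q0 i0 (Pi.single (Sum.inl x) 1) = 1 ∧
      q0 i0 (Pi.single (Sum.inr x) 1) = 1 then (-2 : ℤ) else 2) := by
    refine Finset.prod_pos fun i hi => ?_
    have hi' : i ≠ i0 := (Finset.mem_erase.1 hi).1
    rw [q0_inl, q0_inr]; simp [hi']
  linarith

/-- the stabiliser of the minus type form -/
def H (i0 : Fin n) : Subgroup (symplecticGroup (Fin n) (ZMod 2)) where
  carrier := {g | ∀ v : V n, q0 i0 (g.1 *ᵥ v) = q0 i0 v}
  mul_mem' := by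
    intro g h hg hh v
    rw [mul_mulVec, hg, hh]
  one_mem' := by
    intro v
    rw [one_mulVec']
  inv_mem' := by
    intro g hg v
    have := hg (g⁻¹.1 *ᵥ v)
    rw [← mul_mulVec, mul_inv_cancel, one_mulVec'] at this
    exact this.symm

lemma mem_H (i0 : Fin n) (g : symplecticGroup (Fin n) (ZMod 2)) :
    g ∈ H i0 ↔ ∀ v : V n, q0 i0 (g.1 *ᵥ v) = q0 i0 v := Iff.rfl

lemma a_ne_one (i : Fin n) : a i ≠ 1 := by
  intro h
  have h1 := a_mulVec_inl i (Pi.single (Sum.inl i) 1) i
  rw [h, one_mulVec'] at h1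
  simp at h1

lemma a_notMem_H {i0 i : Fin n} (hi : i ≠ i0) : a i ∉ H i0 := by
  intro h
  have h1 := h (Pi.single (Sum.inr i) 1)
  rw [q0_inr, if_neg hi] at h1
  rw [(isQ_q0 i0).eq] at h1
  simp only [a_mulVec_inl, a_mulVec_inr, q0_inl, q0_inr] at h1
  rw [Finset.sum_eq_single i] at h1
  · simp [hi] at h1
  · intro j _ hj
    simp [hj, Pi.single_apply]
  · simp

/-- key lemma: a form with negative exponential sum is fixed by some `a i`. -/
lemma key {q : V n → ZMod 2} (hq : IsQ q) (hS : S q < 0) :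
    ∃ i, ∀ v, q ((a i).1 *ᵥ v) = q v := by
  by_contra hcon
  push Not at hcon
  have hall : ∀ i : Fin n, ¬ (q (Pi.single (Sum.inl i) 1) = 1 ∧ q (Pi.single (Sum.inr i) 1) = 1) := by
    rintro i ⟨h1, h2⟩
    obtain ⟨v, hv⟩ := hcon i
    apply hv
    rw [hq.eq, hq.eq v]
    refine Finset.sum_congr rfl fun j _ => ?_
    simp only [a_mulVec_inl, a_mulVec_inr]
    by_cases hj : j = i
    · subst hj
      simp only [if_true, h1, h2]
      generalize v (Sum.inl j) = s
      generalize v (Sum.inr j) = t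
      revert s t
      decide
    · simp [hj]
  rw [S_eq' hq] at hS
  have : 0 < ∏ i : Fin n, (if q (Pi.single (Sum.inl i) 1) = 1 ∧ q (Pi.single (Sum.inr i) 1) = 1
      then (-2 : ℤ) else 2) :=
    Finset.prod_pos fun i _ => by rw [if_neg (hall i)]; norm_num
  linarith

lemma S_comp (q : V n → ZMod 2) (g : symplecticGroup (Fin n) (ZMod 2)) :
    S (fun v => q (g.1 *ᵥ v)) = S q := by
  unfold S
  let e : V n ≃ V n :=
    { toFun := fun v => g.1 *ᵥ v
      invFun := fun v => g⁻¹.1 *ᵥ v
      left_inv := fun v => by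
        show g⁻¹.1 *ᵥ (g.1 *ᵥ v) = v
        rw [← mul_mulVec, inv_mul_cancel, one_mulVec']
      right_inv := fun v => by
        show g.1 *ᵥ (g⁻¹.1 *ᵥ v) = v
        rw [← mul_mulVec, mul_inv_cancel, one_mulVec'] }
  exact Fintype.sum_equiv e _ _ fun v => rfl

end aux

/-- For every `n ≥ 2` the group `Sp_{2n}(2)` (simple for `n ≥ 3`), in its defining
characteristic `2`, does not have property (*). -/
theorem result (n : ℕ) (hn : 2 ≤ n) :
    ¬ StarProperty (Matrix.symplecticGroup (Fin n) (ZMod 2)) 2 := by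
  intro hstar
  let i0 : Fin n := ⟨0, by omega⟩
  let i1 : Fin n := ⟨1, by omega⟩
  have hne : i1 ≠ i0 := by
    intro h
    have := congrArg Fin.val h
    simp [i0, i1] at this
  have hH : H i0 ≠ ⊤ := by
    intro h
    exact a_notMem_H hne (h ▸ Subgroup.mem_top _)
  have hcop : ∀ x ∈ A n, (orderOf x).Coprime 2 := by
    intro x hx
    have h3 : orderOf x ∣ 3 := orderOf_dvd_of_pow_eq_one (A_cube x hx)
    exact Nat.Coprime.coprime_dvd_left h3 (by norm_num)
  obtain ⟨x, hx⟩ := hstar (A n) A_comm hcop (H i0) hH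
  set q : V n → ZMod 2 := fun v => q0 i0 (x⁻¹.1 *ᵥ v) with hqdef
  have hq : IsQ q := by
    intro v w
    simp only [hqdef]
    rw [mulVec_add, isQ_q0 i0, B_mulVec]
  have hS : S q < 0 := by
    rw [hqdef, S_comp (q0 i0) x⁻¹]
    exact S_q0 i0
  obtain ⟨i, hi⟩ := key hq hS
  have hmem : x⁻¹ * a i * x ∈ H i0 := by
    intro v
    rw [mul_mulVec, mul_mulVec]
    have := hi (x.1 *ᵥ v)
    simp only [hqdef] at this
    rw [this, ← mul_mulVec, inv_mul_cancel, one_mulVec']
  have h1 := hx (a i) (Subgroup.subset_closure ⟨i, rfl⟩) hmem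
  apply a_ne_one i
  have : a i = x * (x⁻¹ * a i * x) * x⁻¹ := by group
  rw [this, h1]
  group

end Pool.Agent.Results.MP_1b60fb_al.SymplecticTwo
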