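import Mathlib

set_option autoImplicit false

open Matrix

namespace Pool.Agent.Results.MP_1b60fb_al.UnitaryTwo

/-- Property (*) of a group `G`, relative to the defining characteristic `p`: for every abelian
subgroup `A` all of whose elements have order coprime to `p`, and every proper subgroup `H`,
some conjugate `A ^ x = x⁻¹ A x` meets `H` trivially. -/
def StarProperty (G : Type) [Group G] (p : ℕ) : Prop :=
  ∀ A : Subgroup G, (∀ a ∈ A, ∀ b ∈ A, a * b = b * a) → (∀ a ∈ A, (orderOf a).Coprime p) →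
    ∀ H : Subgroup G, H ≠ ⊤ → ∃ x : G, ∀ a ∈ A, x⁻¹ * a * x ∈ H → x⁻¹ * a * x = 1

/-- `PSU_n(K)`: the special unitary group of the standard hermitian form on `K^n` (with respect
to the involution `star` of `K`), modulo its centre. -/
abbrev PSU (n : ℕ) (K : Type) [Field K] [StarRing K] : Type :=
  Matrix.specialUnitaryGroup (Fin n) K ⧸ Subgroup.center (Matrix.specialUnitaryGroup (Fin n) K)

/-- `SU_n(K)` -/
abbrev SU (n : ℕ) (K : Type) [Field K] [StarRing K] : Type := Matrix.specialUnitaryGroup (Fin n) K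

section aux1

variable {n : ℕ} {K : Type} [Field K] [StarRing K]

lemma star_mul_self' (g : SU n K) : g.1ᴴ * g.1 = 1 := by
  have h := (Matrix.mem_specialUnitaryGroup_iff.1 g.2).1
  exact Matrix.mem_unitaryGroup_iff'.1 h

lemma norm_inv (g : SU n K) (v : Fin n → K) :
    star (g.1 *ᵥ v) ⬝ᵥ (g.1 *ᵥ v) = star v ⬝ᵥ v := by
  rw [star_mulVec, dotProduct_mulVec, vecMul_vecMul, star_mul_self', vecMul_one]

lemma su_ext {g h : SU n K} (H : ∀ v : Fin n → K, g.1 *ᵥ v = h.1 *ᵥ v) : g = h := by
  apply Subtype.ext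
  exact Matrix.ext_of_mulVec_single (fun i => H _)

lemma su_mul (g h : SU n K) (v : Fin n → K) : (g * h).1 *ᵥ v = g.1 *ᵥ (h.1 *ᵥ v) := by
  rw [mulVec_mulVec]; rfl

lemma su_one (v : Fin n → K) : (1 : SU n K).1 *ᵥ v = v := one_mulVec v

/-- diagonal elements of `SU_n(K)` -/
def D (a : Fin n → K) (ha : ∀ i, star (a i) * a i = 1) (hp : ∏ i, a i = 1) : SU n K :=
  ⟨diagonal a, by
    rw [Matrix.mem_specialUnitaryGroup_iff, Matrix.mem_unitaryGroup_iff', det_diagonal]
    refine ⟨?_, hp⟩
    rw [star_eq_conjTranspose, diagonal_conjTranspose, diagonal_mul_diagonal, ← diagonal_one]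
    congr 1
    ext i
    exact ha i⟩

lemma D_mulVec (a : Fin n → K) (ha : ∀ i, star (a i) * a i = 1) (hp : ∏ i, a i = 1)
    (v : Fin n → K) (k : Fin n) : ((D a ha hp).1 *ᵥ v) k = a k * v k := mulVec_diagonal _ _ _

/-- permutation matrices of even permutations -/
def P (s : Equiv.Perm (Fin n)) (h : Equiv.Perm.sign s = 1) : SU n K :=
  ⟨s.permMatrix K, by
    rw [Matrix.mem_specialUnitaryGroup_iff, Matrix.mem_unitaryGroup_iff', det_permutation, h]
    refine ⟨?_, by simp⟩
    rw [star_eq_conjTranspose, conjTranspose_permMatrix, ← permMatrix_mul, mul_inv_cancel,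
      permMatrix_one]⟩

lemma P_mulVec (s : Equiv.Perm (Fin n)) (h : Equiv.Perm.sign s = 1) (v : Fin n → K) (k : Fin n) :
    ((P s h : SU n K).1 *ᵥ v) k = v (s k) := by
  show ((s.permMatrix K) *ᵥ v) k = _
  rw [permMatrix_mulVec]; rfl

/-- number of leading ones -/
def s0 (n : ℕ) : ℕ := n % 2 + 1

/-- the reference vector, of norm `n + 1` -/
def v0 (n : ℕ) (K : Type) [Field K] : Fin n → K := fun k => if k.val < s0 n then 1 else 0

lemma v0_norm (h2 : (2 : K) = 0) (hn : 4 ≤ n) : star (v0 n K) ⬝ᵥ v0 n K = (n : K) + 1 := by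
  have h1 : star (v0 n K) ⬝ᵥ v0 n K = ∑ k : Fin n, if k.val < s0 n then (1 : K) else 0 := by
    unfold dotProduct v0
    refine Finset.sum_congr rfl fun k _ => ?_
    by_cases h : k.val < s0 n <;> simp [h]
  rw [h1, Fin.sum_univ_eq_sum_range (fun k => if k < s0 n then (1 : K) else 0) n,
    ← Finset.sum_filter]
  have h3 : (Finset.range n).filter (fun k => k < s0 n) = Finset.range (s0 n) := by
    ext k
    rw [Finset.mem_filter, Finset.mem_range, Finset.mem_range]
    have : s0 n ≤ n := by unfold s0; omega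
    omega
  rw [h3]
  simp only [Finset.sum_const, Finset.card_range, nsmul_eq_mul, mul_one, s0]
  push_cast
  congr 1
  have h4 : ((n % 2 + 2 * (n / 2) : ℕ) : K) = (n : K) := by rw [Nat.mod_add_div]
  push_cast at h4
  rw [← h4, h2]
  ring

/-- the stabiliser of the line spanned by `v0` -/
def S (n : ℕ) (K : Type) [Field K] [StarRing K] : Subgroup (SU n K) where
  carrier := {g | ∃ c : K, c ≠ 0 ∧ g.1 *ᵥ v0 n K = c • v0 n K}
  mul_mem' := by
    rintro g h ⟨c, hc, hg⟩ ⟨c', hc', hh⟩
    refine ⟨c * c', mul_ne_zero hc hc', ?_⟩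
    rw [su_mul, hh, mulVec_smul, hg, smul_smul, mul_comm]
  one_mem' := ⟨1, one_ne_zero, by rw [su_one, one_smul]⟩
  inv_mem' := by
    rintro g ⟨c, hc, hg⟩
    refine ⟨c⁻¹, inv_ne_zero hc, ?_⟩
    have h1 : g⁻¹.1 *ᵥ (g.1 *ᵥ v0 n K) = v0 n K := by
      rw [← su_mul, inv_mul_cancel, su_one]
    rw [hg, mulVec_smul] at h1
    rw [eq_inv_smul_iff₀ hc, h1]

lemma mem_S (g : SU n K) : g ∈ S n K ↔ ∃ c : K, c ≠ 0 ∧ g.1 *ᵥ v0 n K = c • v0 n K := Iff.rfl

lemma third (hn : 4 ≤ n) (i k : Fin n) : ∃ j : Fin n, j ≠ i ∧ j ≠ k := by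
  classical
  have h : ({i, k} : Finset (Fin n)).card < (Finset.univ : Finset (Fin n)).card := by
    refine lt_of_le_of_lt Finset.card_le_two ?_
    rw [Finset.card_univ, Fintype.card_fin]
    omega
  obtain ⟨j, _, hj⟩ := Finset.exists_mem_notMem_of_card_lt_card h
  simp only [Finset.mem_insert, Finset.mem_singleton, not_or] at hj
  exact ⟨j, hj.1, hj.2⟩

lemma sign_cyc {k l m : Fin n} (hkl : k ≠ l) (hkm : k ≠ m) :
    Equiv.Perm.sign (Equiv.swap k l * Equiv.swap k m) = 1 := by
  rw [Equiv.Perm.sign_mul, Equiv.Perm.sign_swap hkl, Equiv.Perm.sign_swap hkm]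
  rfl

/-- a central element of `SU_n(K)` which preserves all coordinate lines is scalar -/
lemma center_scalar (hn : 4 ≤ n) (z : SU n K) (hz : z ∈ Subgroup.center (SU n K))
    (hdiag : ∀ k i : Fin n, i ≠ k → (z.1 *ᵥ (Pi.single k 1 : Fin n → K)) i = 0) :
    ∃ c : K, ∀ v : Fin n → K, z.1 *ᵥ v = c • v := by
  have hdiag' : ∀ k : Fin n, z.1 *ᵥ (Pi.single k 1 : Fin n → K) =
      Pi.single k ((z.1 *ᵥ (Pi.single k 1 : Fin n → K)) k) := by
    intro k
    ext i
    by_cases h : i = k
    · subst h; simp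
    · rw [hdiag k i h, Pi.single_eq_of_ne h]
  have hconst : ∀ k m : Fin n, k ≠ m → (z.1 *ᵥ (Pi.single k 1 : Fin n → K)) k =
      (z.1 *ᵥ (Pi.single m 1 : Fin n → K)) m := by
    intro k m hkm
    have hz' := hz
    rw [Subgroup.mem_center_iff] at hz'
    obtain ⟨l, hlk, hlm⟩ := third hn k m
    -- the permutation `s` sends `k` to `m`
    set s : Equiv.Perm (Fin n) := Equiv.swap k l * Equiv.swap k m with hs
    have hsg : Equiv.Perm.sign s = 1 := sign_cyc (Ne.symm hlk) hkm
    have hpi : s k = m := by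
      rw [hs, Equiv.Perm.mul_apply, Equiv.swap_apply_left,
        Equiv.swap_apply_of_ne_of_ne (Ne.symm hkm) (Ne.symm hlm)]
    have hc : (P s hsg : SU n K).1 *ᵥ (Pi.single m 1 : Fin n → K) = Pi.single k 1 := by
      ext x
      rw [P_mulVec]
      by_cases hx : x = k
      · subst hx
        rw [hpi]; simp
      · have : s x ≠ m := by
          intro h
          apply hx
          rw [← hpi] at h
          simpa using h
        rw [Pi.single_eq_of_ne this, Pi.single_eq_of_ne hx]
    have h1 : (P s hsg * z).1 *ᵥ (Pi.single m 1 : Fin n → K) =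
        (z * P s hsg).1 *ᵥ (Pi.single m 1 : Fin n → K) := by
      rw [hz']
    rw [su_mul, su_mul, hc] at h1
    have h2 := congrFun h1 k
    rw [P_mulVec, hpi] at h2
    exact h2.symm
  let k0 : Fin n := ⟨0, by omega⟩
  refine ⟨(z.1 *ᵥ (Pi.single k0 1 : Fin n → K)) k0, fun v => ?_⟩
  have hall : ∀ k : Fin n, z.1 *ᵥ (Pi.single k 1 : Fin n → K) =
      (z.1 *ᵥ (Pi.single k0 1 : Fin n → K)) k0 • Pi.single k 1 := by
    intro k
    rw [hdiag' k]
    by_cases h : k = k0
    · rw [h]
      ext i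
      by_cases hi : i = k0
      · rw [hi]; simp
      · simp [hi]
    · rw [hconst k k0 h]
      ext i
      by_cases hi : i = k
      · subst hi; simp
      · simp [hi]
  have hv : v = ∑ k, v k • (Pi.single k 1 : Fin n → K) := by
    ext i
    simp [Finset.sum_apply, Pi.single_apply]
  rw [hv, mulVec_sum, Finset.smul_sum]
  refine Finset.sum_congr rfl fun k _ => ?_
  rw [mulVec_smul, hall k, smul_comm]

lemma scalar_mem_S (hn : 4 ≤ n) (z : SU n K) (h : ∃ c : K, ∀ v : Fin n → K, z.1 *ᵥ v = c • v) :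
    z ∈ S n K := by
  obtain ⟨c, hc⟩ := h
  rw [mem_S]
  refine ⟨c, ?_, hc _⟩
  intro h0
  have h1 : z⁻¹.1 *ᵥ (z.1 *ᵥ v0 n K) = v0 n K := by
    rw [← su_mul, inv_mul_cancel, su_one]
  rw [hc, h0, zero_smul, mulVec_zero] at h1
  have h2 := congrFun h1 ⟨0, by omega⟩
  simp [v0, s0] at h2

end aux1

section aux2

variable {n : ℕ} {K : Type} [Field K] [StarRing K] [Fintype K]

omit [StarRing K] in
lemma cube (hK : Fintype.card K = 4) {x : K} (hx : x ≠ 0) : x ^ 3 = 1 := by
  have h := FiniteField.pow_card_sub_one_eq_one x hx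
  rw [hK] at h
  exact h

omit [StarRing K] in
lemma char2 (hK : Fintype.card K = 4) : (2 : K) = 0 := by
  have h : (Fintype.card K : K) = 0 := FiniteField.cast_card_eq_zero K
  rw [hK] at h
  have h2 : (2 : K) * 2 = 0 := by
    push_cast at h
    linear_combination h
  exact mul_self_eq_zero.1 h2

omit [StarRing K] in
/-- a primitive cube root of unity -/
lemma exists_omega (hK : Fintype.card K = 4) : ∃ w : K, w ≠ 0 ∧ w ≠ 1 := by
  classical
  have h : ({0, 1} : Finset K).card < (Finset.univ : Finset K).card := by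
    refine lt_of_le_of_lt Finset.card_le_two ?_
    rw [Finset.card_univ, hK]
    norm_num
  obtain ⟨j, _, hj⟩ := Finset.exists_mem_notMem_of_card_lt_card h
  simp only [Finset.mem_insert, Finset.mem_singleton, not_or] at hj
  exact ⟨j, hj.1, hj.2⟩

lemma star_mul_eq (hK : Fintype.card K = 4) (hs : ∀ x : K, star x = x ^ 2) {x : K} (hx : x ≠ 0) :
    star x * x = 1 := by
  rw [hs, ← pow_succ, cube hK hx]

/-- if the norm of `v` is `n + 1`, then `v` has a zero coordinate. -/
lemma exists_zero (hK : Fintype.card K = 4) (hs : ∀ x : K, star x = x ^ 2)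
    (v : Fin n → K) (hv : star v ⬝ᵥ v = (n : K) + 1) : ∃ i : Fin n, v i = 0 := by
  by_contra hcon
  push Not at hcon
  have h1 : star v ⬝ᵥ v = (n : K) := by
    unfold dotProduct
    have : ∀ i ∈ (Finset.univ : Finset (Fin n)), star v i * v i = 1 :=
      fun i _ => star_mul_eq hK hs (hcon i)
    rw [Finset.sum_congr rfl this]
    simp
  rw [h1] at hv
  have h2 : (1 : K) = 0 := by linear_combination -hv
  exact one_ne_zero h2

lemma center_scalar' (hK : Fintype.card K = 4) (hs : ∀ x : K, star x = x ^ 2)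
    (hn : 4 ≤ n) (z : SU n K) (hz : z ∈ Subgroup.center (SU n K)) :
    ∃ c : K, ∀ v : Fin n → K, z.1 *ᵥ v = c • v := by
  refine center_scalar hn z hz ?_
  intro k i hik
  rw [Subgroup.mem_center_iff] at hz
  obtain ⟨w, hw0, hw1⟩ := exists_omega hK
  obtain ⟨j, hji, hjk⟩ := third hn i k
  -- `diag(.., w, .., w⁻¹, ..)` with `w` in place `i`, `w⁻¹` in place `j`
  let a : Fin n → K := fun m => if m = i then w else if m = j then w⁻¹ else 1
  have ha : ∀ m, star (a m) * a m = 1 := by
    intro m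
    apply star_mul_eq hK hs
    show (if m = i then w else if m = j then w⁻¹ else 1) ≠ 0
    split_ifs
    · exact hw0
    · exact inv_ne_zero hw0
    · exact one_ne_zero
  have hp : ∏ m, a m = 1 := by
    rw [← Finset.mul_prod_erase Finset.univ _ (Finset.mem_univ i),
      ← Finset.mul_prod_erase (Finset.univ.erase i) _ (Finset.mem_erase.2 ⟨hji, Finset.mem_univ j⟩)]
    have h1 : a i = w := if_pos rfl
    have h2 : a j = w⁻¹ := by
      show (if j = i then w else if j = j then w⁻¹ else 1) = w⁻¹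
      rw [if_neg hji, if_pos rfl]
    have h3 : ∏ x ∈ (Finset.univ.erase i).erase j, a x = 1 := by
      refine Finset.prod_eq_one fun x hx => ?_
      rw [Finset.mem_erase, Finset.mem_erase] at hx
      show (if x = i then w else if x = j then w⁻¹ else 1) = 1
      rw [if_neg hx.2.1, if_neg hx.1]
    rw [h1, h2, h3, mul_one, mul_inv_cancel₀ hw0]
  have h1 : (D a ha hp * z).1 *ᵥ (Pi.single k 1 : Fin n → K) =
      (z * D a ha hp).1 *ᵥ (Pi.single k 1 : Fin n → K) := by
    rw [hz]
  rw [su_mul, su_mul] at h1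
  have h2 : (D a ha hp).1 *ᵥ (Pi.single k 1 : Fin n → K) = Pi.single k 1 := by
    ext m
    rw [D_mulVec]
    by_cases hm : m = k
    · subst hm
      show (if m = i then w else if m = j then w⁻¹ else 1) * _ = _
      rw [if_neg (Ne.symm hik), if_neg (Ne.symm hjk), one_mul]
    · simp [hm]
  rw [h2] at h1
  have h3 := congrFun h1 i
  rw [D_mulVec] at h3
  have h4 : a i = w := if_pos rfl
  rw [h4] at h3
  have h5 : (w - 1) * (z.1 *ᵥ (Pi.single k 1 : Fin n → K)) i = 0 := by
    rw [sub_mul, h3, one_mul, sub_self]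
  rcases mul_eq_zero.1 h5 with h | h
  · exact absurd (sub_eq_zero.1 h) hw1
  · exact h

/-- the image of the diagonal subgroup, an elementary abelian `3`-group -/
def A (n : ℕ) (K : Type) [Field K] [StarRing K] : Subgroup (PSU n K) :=
  Subgroup.closure {x | ∃ (a : Fin n → K) (ha : ∀ i, star (a i) * a i = 1) (hp : ∏ i, a i = 1),
    x = (QuotientGroup.mk (D a ha hp) : PSU n K)}

omit [Fintype K] in
lemma A_comm : ∀ x ∈ A n K, ∀ y ∈ A n K, x * y = y * x := by
  intro x hx y hy
  refine Subgroup.closure_induction₂ (p := fun x y _ _ => x * y = y * x) ?_ ?_ ?_ ?_ ?_ ?_ ?_ hx hy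
  · rintro _ _ ⟨a, ha, hp, rfl⟩ ⟨b, hb, hq, rfl⟩
    rw [← QuotientGroup.mk_mul, ← QuotientGroup.mk_mul]
    congr 1
    apply su_ext
    intro v
    rw [su_mul, su_mul]
    ext k
    rw [D_mulVec, D_mulVec, D_mulVec, D_mulVec]
    ring
  · intro x _; simp
  · intro x _; simp
  · intro x y z _ _ _ h1 h2
    exact (Commute.mul_left (show Commute x z from h1) (show Commute y z from h2))
  · intro x y z _ _ _ h1 h2
    exact (Commute.mul_right (show Commute z x from h1) (show Commute z y from h2))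
  · intro x y _ _ h
    exact (Commute.inv_left (show Commute x y from h))
  · intro x y _ _ h
    exact (Commute.inv_right (show Commute x y from h))

lemma A_cube (hK : Fintype.card K = 4) : ∀ x ∈ A n K, x ^ 3 = 1 := by
  intro x hx
  refine Subgroup.closure_induction (p := fun x _ => x ^ 3 = 1) ?_ ?_ ?_ ?_ hx
  · rintro _ ⟨a, ha, hp, rfl⟩
    rw [← QuotientGroup.mk_pow]
    have : D a ha hp ^ 3 = 1 := by
      apply su_ext
      intro v
      rw [pow_succ, pow_succ, pow_one, su_mul, su_mul, su_one]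
      ext k
      rw [D_mulVec, D_mulVec, D_mulVec]
      have hk : a k ≠ 0 := by
        intro h
        have := ha k
        rw [h, mul_zero] at this
        exact zero_ne_one this
      have := cube hK hk
      linear_combination (v k) * this
    rw [this, QuotientGroup.mk_one]
  · simp
  · intro x y hx hy h1 h2
    rw [(show Commute x y from A_comm x hx y hy).mul_pow, h1, h2, one_mul]
  · intro x _ h
    rw [inv_pow, h, inv_one]

/-- the image of the stabiliser -/
def H (n : ℕ) (K : Type) [Field K] [StarRing K] : Subgroup (PSU n K) :=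
  (S n K).map (QuotientGroup.mk' _)

lemma H_ne_top (hK : Fintype.card K = 4) (hs : ∀ x : K, star x = x ^ 2) (hn : 4 ≤ n) :
    H n K ≠ ⊤ := by
  intro h
  have h1 : (H n K).comap (QuotientGroup.mk' _) = S n K := by
    rw [H, Subgroup.comap_map_eq, QuotientGroup.ker_mk']
    exact sup_eq_left.2 fun z hz => scalar_mem_S hn z (center_scalar' hK hs hn z hz)
  rw [h, Subgroup.comap_top] at h1
  let i0 : Fin n := ⟨0, by omega⟩
  let i2 : Fin n := ⟨2, by omega⟩
  let i3 : Fin n := ⟨3, by omega⟩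
  have h02 : i0 ≠ i2 := by simp [i0, i2]
  have h03 : i0 ≠ i3 := by simp [i0, i3]
  have h23 : i2 ≠ i3 := by simp [i2, i3]
  have h2 : (P (Equiv.swap i0 i3 * Equiv.swap i0 i2) (sign_cyc h03 h02) : SU n K) ∈ S n K :=
    h1 ▸ Subgroup.mem_top _
  have hpi : (Equiv.swap i0 i3 * Equiv.swap i0 i2) i0 = i2 := by
    rw [Equiv.Perm.mul_apply, Equiv.swap_apply_left,
      Equiv.swap_apply_of_ne_of_ne (Ne.symm h02) h23]
  have hsle : s0 n ≤ 2 := by unfold s0; omega
  have hv2 : v0 n K i2 = 0 := by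
    show (if (2 : ℕ) < s0 n then (1 : K) else 0) = 0
    rw [if_neg (by omega)]
  have hv0 : v0 n K i0 = 1 := by
    show (if (0 : ℕ) < s0 n then (1 : K) else 0) = 1
    rw [if_pos (by unfold s0; omega)]
  rw [mem_S] at h2
  obtain ⟨c, hc, h3⟩ := h2
  have h4 := congrFun h3 i0
  rw [P_mulVec, hpi, hv2, Pi.smul_apply, hv0, smul_eq_mul, mul_one] at h4
  exact hc h4.symm

end aux2

/-- Let `K` be the field with four elements, with `star x = x ^ 2`. For every `n ≥ 4` not
divisible by `3`, the simple group `PSU_n(2) = PSU(K^n)`, in its defining characteristic `2`,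
does not have property (*). -/
theorem result (K : Type) [Field K] [StarRing K] [Fintype K] (hK : Fintype.card K = 4)
    (hs : ∀ x : K, star x = x ^ 2) (n : ℕ) (hn : 4 ≤ n) (h3 : ¬ 3 ∣ n) :
    ¬ StarProperty (PSU n K) 2 := by
  intro hstar
  have hcop : ∀ x ∈ A n K, (orderOf x).Coprime 2 := by
    intro x hx
    have h2 : orderOf x ∣ 3 := orderOf_dvd_of_pow_eq_one (A_cube hK x hx)
    exact Nat.Coprime.coprime_dvd_left h2 (by norm_num)
  obtain ⟨x, hx⟩ := hstar (A n K) A_comm hcop (H n K) (H_ne_top hK hs hn)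
  obtain ⟨y, rfl⟩ := QuotientGroup.mk_surjective x
  set v : Fin n → K := y.1 *ᵥ v0 n K with hv
  have hnorm : star v ⬝ᵥ v = (n : K) + 1 := by
    rw [hv, norm_inv, v0_norm (char2 hK) hn]
  obtain ⟨i, hi⟩ := exists_zero hK hs v hnorm
  obtain ⟨w, hw0, hw1⟩ := exists_omega hK
  have hw3 : w ^ 3 = 1 := cube hK hw0
  have hwn : w ^ n ≠ 1 := by
    intro h
    have h1 : orderOf w ∣ n := orderOf_dvd_of_pow_eq_one h
    have h2 : orderOf w ∣ 3 := orderOf_dvd_of_pow_eq_one hw3
    rcases (Nat.dvd_prime Nat.prime_three).1 h2 with h4 | h4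
    · exact hw1 (orderOf_eq_one_iff.1 h4)
    · exact h3 (h4 ▸ h1)
  -- the diagonal matrix with `w` everywhere except in place `i`
  let a : Fin n → K := fun m => if m = i then (w ^ (n - 1))⁻¹ else w
  have hai : a i = (w ^ (n - 1))⁻¹ := if_pos rfl
  have haj : ∀ m, m ≠ i → a m = w := fun m hm => if_neg hm
  have ha : ∀ m, star (a m) * a m = 1 := by
    intro m
    apply star_mul_eq hK hs
    by_cases hm : m = i
    · rw [hm, hai]; exact inv_ne_zero (pow_ne_zero _ hw0)
    · rw [haj m hm]; exact hw0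
  have hp : ∏ m, a m = 1 := by
    rw [← Finset.mul_prod_erase Finset.univ _ (Finset.mem_univ i), hai]
    have h4 : ∏ x ∈ Finset.univ.erase i, a x = w ^ (n - 1) := by
      rw [Finset.prod_congr rfl fun x hx => haj x (Finset.mem_erase.1 hx).1]
      rw [Finset.prod_const, Finset.card_erase_of_mem (Finset.mem_univ i), Finset.card_univ,
        Fintype.card_fin]
    rw [h4, inv_mul_cancel₀ (pow_ne_zero _ hw0)]
  have hfix : (D a ha hp).1 *ᵥ v = w • v := by
    ext k
    rw [D_mulVec]
    by_cases h : k = i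
    · rw [h, Pi.smul_apply, hi, mul_zero, smul_zero]
    · rw [haj k h, Pi.smul_apply, smul_eq_mul]
  have hS : y⁻¹ * D a ha hp * y ∈ S n K := by
    rw [mem_S]
    refine ⟨w, hw0, ?_⟩
    rw [su_mul, su_mul, ← hv, hfix, mulVec_smul, hv, ← su_mul, inv_mul_cancel, su_one]
  have hmem : (QuotientGroup.mk y : PSU n K)⁻¹ * QuotientGroup.mk (D a ha hp) * QuotientGroup.mk y
      ∈ H n K := by
    rw [← QuotientGroup.mk_inv, ← QuotientGroup.mk_mul, ← QuotientGroup.mk_mul]
    exact Subgroup.mem_map_of_mem _ hS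
  have h1 := hx _ (Subgroup.subset_closure ⟨a, ha, hp, rfl⟩) hmem
  have h2 : (QuotientGroup.mk (D a ha hp) : PSU n K) = 1 := by
    have : (QuotientGroup.mk (D a ha hp) : PSU n K) = (QuotientGroup.mk y) *
      ((QuotientGroup.mk y : PSU n K)⁻¹ * QuotientGroup.mk (D a ha hp) * QuotientGroup.mk y) *
      (QuotientGroup.mk y)⁻¹ := by group
    rw [this, h1]
    group
  have h4 := (QuotientGroup.eq_one_iff _).1 h2
  obtain ⟨c, hc⟩ := center_scalar' hK hs hn _ h4
  obtain ⟨k, hki, _⟩ := third hn i i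
  have h5 := congrFun (hc (fun _ => 1)) i
  have h6 := congrFun (hc (fun _ => 1)) k
  rw [D_mulVec, hai, Pi.smul_apply] at h5
  rw [D_mulVec, haj k hki, Pi.smul_apply] at h6
  rw [← h6] at h5
  apply hwn
  have h7 : w ^ (n - 1) ≠ 0 := pow_ne_zero _ hw0
  have h8 : (w ^ (n - 1))⁻¹ = w := by
    simpa using h5
  have h9 : w ^ n = w ^ (n - 1) * w := by
    rw [← pow_succ]
    congr 1
    omega
  rw [h9]
  nth_rewrite 2 [← h8]
  rw [mul_inv_cancel₀ h7]

end Pool.Agent.Results.MP_1b60fb_al.UnitaryTwo
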